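import Pool.Agent.H307R2.PW.Fin
import Pool.Agent.H307R2.PW.T1
import Pool.Agent.H307R2.PW.T4
import Pool.Agent.H307R2.PW.T5
import Pool.Agent.H276R2.PWT2
import Pool.Agent.H650R2.PW.T3

set_option autoImplicit false

/-! # Integers `n`, no cubes, for which `n = m ^ 3 + p` needs a large `m`

In every interval `(M, M + X]` with `M ≥ X ≥ X₀` there is an `n`, not a cube, such that every
representation `n = m ^ 3 + p` with `p` prime and `m` natural has
`m > c log X (log₂ X) ^ 3 (log₄ X) ^ 2 / (log₃ X) ^ 4`. -/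

namespace Pool.Agent.Results.MP_15f56c_nt.LargeCubeNeeded

open Pool.Agent.H307R2.PW

theorem result :
    ∃ c : ℝ, 0 < c ∧ ∃ X₀ : ℝ, ∀ X : ℝ, X₀ ≤ X → ∀ M : ℕ, X ≤ M →
    ∃ n : ℕ, (M : ℝ) < n ∧ (n : ℝ) ≤ M + X ∧ (∀ t : ℕ, t ^ 3 ≠ n) ∧
      ∀ m p : ℕ, p.Prime → n = m ^ 3 + p →
        c * (Real.log X * (Real.log (Real.log X)) ^ 3 *
          (Real.log (Real.log (Real.log (Real.log X)))) ^ 2 /
          (Real.log (Real.log (Real.log X))) ^ 4) < m := by
  obtain ⟨c, hc, X₀, h⟩ := final 3 (by norm_num) (t5 _ (t1 _ (by omega))) (t4 t2 t3)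
  refine ⟨c, hc, X₀, fun X hX M hM => ?_⟩
  obtain ⟨n, h1, h2, h3, h4⟩ := h X hX M hM
  refine ⟨n, h1, h2, ?_, ?_⟩
  · intro t ht
    have h5 : t ^ 3 % 4 = 2 := by rw [ht]; exact h3
    have h6 : t % 4 = 0 ∨ t % 4 = 1 ∨ t % 4 = 2 ∨ t % 4 = 3 := by omega
    rcases h6 with h6 | h6 | h6 | h6 <;> simp [Nat.pow_mod, h6] at h5
  · intro m p hp hn
    by_contra hcon
    push Not at hcon
    have hFF : FF 3 X = Real.log X * (Real.log (Real.log X)) ^ 3 *
          (Real.log (Real.log (Real.log (Real.log X)))) ^ 2 /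
          (Real.log (Real.log (Real.log X))) ^ 4 := by
      have hdiv : (Nat.divisors 3).card = 2 := by decide
      unfold FF
      rw [hdiv]
    obtain ⟨r, hr, -, hr2, hr3⟩ := h4 (-(m : ℤ)) (by
      rw [hFF]
      push_cast
      rw [abs_neg, abs_of_nonneg (Nat.cast_nonneg _)]
      exact hcon)
    have he : (n : ℤ) + (-(m : ℤ)) ^ 3 = (p : ℤ) := by
      rw [hn]
      push_cast
      ring
    rw [he] at hr2 hr3
    have hrp : r ∣ p := by exact_mod_cast hr2
    have hrp' : r = p := (Nat.prime_dvd_prime_iff_eq hr hp).1 hrp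
    have hrp3 : r < p := by exact_mod_cast hr3
    omega

end Pool.Agent.Results.MP_15f56c_nt.LargeCubeNeeded
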